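import Pool.Agent.Work.MP_3a2c1d_lc.Main

set_option autoImplicit false

namespace Pool.Agent.Results.MP_3a2c1d_lc.QuasiIdentities

/-- A group word: the list of its letters; `(i, true)` is the variable `x i`, `(i, false)` is its
inverse. -/
abbrev GWord := List (ℕ × Bool)

/-- A finite nonempty meet of group words. -/
abbrev Meet := GWord × List GWord

/-- A lattice-ordered group term: a finite nonempty join of meets. -/
abbrev Term := Meet × List Meet

/-- Value of a group word. -/
def wordVal {G : Type} [Group G] (x : ℕ → G) (w : GWord) : G := FreeGroup.lift x (FreeGroup.mk w)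

/-- Value of a meet of words. -/
def meetVal {G : Type} [Group G] [Lattice G] (x : ℕ → G) (q : Meet) : G :=
  q.2.foldr (fun w a => wordVal x w ⊓ a) (wordVal x q.1)

/-- Value of a term. -/
def termVal {G : Type} [Group G] [Lattice G] (x : ℕ → G) (t : Term) : G :=
  t.2.foldr (fun q b => meetVal x q ⊔ b) (meetVal x t.1)

/-- `g` is a free generating family of the lattice-ordered group `G`: the universal property. -/
def FreeOn {n : ℕ} {G : Type} [Group G] [Lattice G] (g : Fin n → G) : Prop :=
  ∀ (H : Type) [Group H] [Lattice H] [MulLeftMono H] [MulRightMono H] (f : Fin n → H),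
    ∃ φ : G →* H, (∀ a b : G, φ (a ⊔ b) = φ a ⊔ φ b) ∧ (∀ a b : G, φ (a ⊓ b) = φ a ⊓ φ b) ∧
      (∀ i, φ (g i) = f i) ∧
      ∀ ψ : G →* H, (∀ a b : G, ψ (a ⊔ b) = ψ a ⊔ ψ b) → (∀ a b : G, ψ (a ⊓ b) = ψ a ⊓ ψ b) →
        (∀ i, ψ (g i) = f i) → ψ = φ

/-- The quasi-identity `t₁ = 1 and … and t_k = 1 imply t = 1`, given as `([t₁, …, t_k], t)`, holds
in `G`. -/
def QuasiHolds (G : Type) [Group G] [Lattice G] (c : List Term × Term) : Prop :=
  ∀ x : ℕ → G, (∀ t ∈ c.1, termVal x t = 1) → termVal x c.2 = 1

/-- For every `n ≥ 2` the quasi-equational theory (hence the universal theory) of the free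
lattice-ordered group on `n` generators is undecidable. -/
theorem result (n : ℕ) (hn : 2 ≤ n) (G : Type) [Group G] [Lattice G] [MulLeftMono G]
    [MulRightMono G] (g : Fin n → G) (hg : FreeOn g) : ¬ ComputablePred (QuasiHolds G) :=
  Pool.Agent.Work.MP_3a2c1d_lc.not_computable_quasi hn g hg

end Pool.Agent.Results.MP_3a2c1d_lc.QuasiIdentities
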